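import Pool.Agent.Y8.Stm6
import Pool.Agent.Y8.En
import Pool.Agent.W22.ME.TD

/-!
The harmonic part of a weak solution, extended to all times (job FLD of the project NS/Y8).
-/

set_option linter.unusedVariables false

open MeasureTheory Set Metric Filter Topology
open scoped ContDiff NNReal

namespace Pool.Agent.Y784.NS8

open H459R3.NS W221.NS Pool.Agent.Y8 Pool.Agent.W22.ME.TD

/-! ### Smooth kernels with compact support -/

/-- A uniform bound for finitely many. -/
theorem unif {ι : Type} [Fintype ι] {P : ι → ℝ → Prop} (hm : ∀ i a b, a ≤ b → P i a → P i b)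
    (h : ∀ i, ∃ N, 0 ≤ N ∧ P i N) : ∃ N, 0 ≤ N ∧ ∀ i, P i N := by
  choose N hN hP using h
  exact ⟨∑ i, N i, Finset.sum_nonneg fun i _ => hN i, fun i => hm i _ _
    (Finset.single_le_sum (f := N) (fun i _ => hN i) (Finset.mem_univ i)) (hP i)⟩

/-- The directions. -/
noncomputable def dir (b : Bool × Fin 3) : V × V :=
  if b.1 then (Pi.single b.2 1, 0) else (0, Pi.single b.2 1)

/-- A smooth kernel with support in a fixed compact set. -/
structure Ker (K : V × V → ℝ) : Prop where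
  sm : ContDiff ℝ ∞ K
  sp : tsupport K ⊆ closedBall (0 : V) 2 ×ˢ closedBall (0 : V) 4

namespace Ker

variable {K : V × V → ℝ}

theorem fd (h : Ker K) (w : V × V) : Ker (fun z => fderiv ℝ K z w) := by
  refine ⟨(h.sm.fderiv_right (m := ∞) (by simp)).clm_apply contDiff_const, ?_⟩
  refine subset_trans ?_ h.sp
  refine (closure_mono ?_).trans (tsupport_fderiv_subset ℝ (f := K))
  intro z hz
  rw [Function.mem_support] at hz ⊢
  intro h0
  exact hz (by rw [h0]; rfl)

theorem cs (h : Ker K) : HasCompactSupport K :=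
  IsCompact.of_isClosed_subset ((isCompact_closedBall _ _).prod (isCompact_closedBall _ _))
    (isClosed_tsupport K) h.sp

theorem zero (h : Ker K) {x y : V} (hy : y ∉ closedBall (0 : V) 4) : K (x, y) = 0 :=
  image_eq_zero_of_notMem_tsupport fun h1 => hy (h.sp h1).2

theorem zero' (h : Ker K) {x y : V} (hy : y ∉ ball (0 : V) 8) : K (x, y) = 0 :=
  h.zero fun h1 => hy (closedBall_subset_ball (by norm_num) h1)

theorem bd (h : Ker K) : ∃ N : ℝ, 0 ≤ N ∧ ∀ z, |K z| ≤ N := by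
  obtain ⟨N, hN⟩ := h.sm.continuous.bounded_above_of_compact_support h.cs
  exact ⟨N, (norm_nonneg _).trans (hN 0), hN⟩

theorem bound {κ : Fin 3 → Fin 3 → V × V → ℝ} (h : ∀ i j, Ker (κ i j)) : ∃ N : ℝ, 0 ≤ N ∧
    ∀ i j b c, (∀ z, |κ i j z| ≤ N) ∧ (∀ z, |fderiv ℝ (κ i j) z (dir b)| ≤ N) ∧
      ∀ z, |fderiv ℝ (fun z => fderiv ℝ (κ i j) z (dir b)) z (dir c)| ≤ N := by
  obtain ⟨N, hN, hb⟩ := unif (ι := Fin 3 × Fin 3 × (Bool × Fin 3) × (Bool × Fin 3))
    (P := fun q N => (∀ z, |κ q.1 q.2.1 z| ≤ N) ∧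
      (∀ z, |fderiv ℝ (κ q.1 q.2.1) z (dir q.2.2.1)| ≤ N) ∧
      ∀ z, |fderiv ℝ (fun z => fderiv ℝ (κ q.1 q.2.1) z (dir q.2.2.1)) z (dir q.2.2.2)| ≤ N)
    (fun q a b hab hq => ⟨fun z => (hq.1 z).trans hab, fun z => (hq.2.1 z).trans hab,
      fun z => (hq.2.2 z).trans hab⟩) (fun q => by
      obtain ⟨N0, p0, h0⟩ := (h q.1 q.2.1).bd
      obtain ⟨N1, p1, h1⟩ := ((h q.1 q.2.1).fd (dir q.2.2.1)).bd
      obtain ⟨N2, p2, h2⟩ := (((h q.1 q.2.1).fd (dir q.2.2.1)).fd (dir q.2.2.2)).bd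
      exact ⟨N0 + N1 + N2, by linarith, fun z => (h0 z).trans (by linarith),
        fun z => (h1 z).trans (by linarith), fun z => (h2 z).trans (by linarith)⟩)
  exact ⟨N, hN, fun i j b c => hb (i, j, b, c)⟩

end Ker

/-! ### Integrals against kernels -/

theorem joint {H : Set ℝ} (hH : IsOpen H) {w : ℝ → V → ℝ}
    (hw : ContDiffOn ℝ ∞ (fun z : ℝ × V => w z.1 z.2) (H ×ˢ univ)) {K : V × V → ℝ} (hK : Ker K) :
    ContDiffOn ℝ ∞ (fun z : ℝ × V => ∫ y, w z.1 y * K (z.2, y)) (H ×ˢ univ) := by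
  let g : (ℝ × V) → V → ℝ := fun z y => w z.1 y * K (z.2, y)
  have hs : IsOpen (H ×ˢ (univ : Set V)) := opH hH
  have hg : ContDiffOn ℝ ∞ (↿g) ((H ×ˢ (univ : Set V)) ×ˢ (univ : Set V)) := by
    have h1 : ContDiffOn ℝ ∞ (fun q : (ℝ × V) × V => K (q.1.2, q.2))
        ((H ×ˢ (univ : Set V)) ×ˢ (univ : Set V)) :=
      (hK.sm.comp (by fun_prop)).contDiffOn
    have h2 : ContDiff ℝ ∞ (fun q : (ℝ × V) × V => ((q.1.1, q.2) : ℝ × V)) := by
      fun_prop
    have h3 := hw.comp h2.contDiffOn (s := (H ×ˢ (univ : Set V)) ×ˢ (univ : Set V))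
      (fun q hq => ⟨hq.1.1, mem_univ _⟩)
    exact ContDiffOn.mul h3 h1
  have key := contDiffOn_convolution_right_with_param_comp (𝕜 := ℝ) (n := ⊤)
    (ContinuousLinearMap.mul ℝ ℝ) (s := H ×ˢ (univ : Set V))
    (v := fun _ : ℝ × V => (0 : V)) contDiffOn_const (f := fun _ : V => (1 : ℝ)) (g := g)
    (k := closedBall (0 : V) 4) hs (isCompact_closedBall 0 4)
    (fun z y _ hy => by simp [g, hK.zero hy]) (μ := (volume : Measure V))
    (locallyIntegrable_const 1) hg
  refine key.congr ?_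
  intro z _
  simp only [convolution_def, ContinuousLinearMap.mul_apply', one_mul, zero_sub]
  exact (integral_neg_eq_self (fun y => g z y) volume).symm

theorem IK_smooth {w : V → ℝ} (hw : ContDiff ℝ ∞ w) {K : V × V → ℝ} (hK : Ker K) :
    ContDiff ℝ ∞ (fun x => ∫ y, w y * K (x, y)) := by
  have h1 := joint (H := univ) isOpen_univ (w := fun _ => w)
    (hw.comp contDiff_snd).contDiffOn hK
  exact sl_sm (F := fun _ x => ∫ y, w y * K (x, y)) h1 (mem_univ 0)

theorem pd_IK {w : V → ℝ} (hw : ContDiff ℝ ∞ w) {K : V × V → ℝ} (hK : Ker K) (j : Fin 3) :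
    pd j (fun x => ∫ y, w y * K (x, y)) =
      fun x => ∫ y, w y * fderiv ℝ K (x, y) (Pi.single j 1, 0) := by
  funext x
  have hd : HasDerivAt (fun s : ℝ => x + s • (Pi.single j 1 : V)) (Pi.single j 1) 0 := by
    simpa using ((hasDerivAt_id (0 : ℝ)).smul_const (Pi.single j 1 : V)).const_add x
  have h0 : x + (0 : ℝ) • (Pi.single j 1 : V) = x := by simp
  have h1 : HasDerivAt (fun s : ℝ => ∫ y, w y * K (x + s • (Pi.single j 1 : V), y))
      (pd j (fun x => ∫ y, w y * K (x, y)) x) 0 := by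
    have h2 := ((IK_smooth hw hK).differentiable (by simp) (x + (0 : ℝ) • (Pi.single j 1 : V)))
    have h3 := h2.hasFDerivAt.comp_hasDerivAt (0 : ℝ) hd
    rw [h0] at h3
    exact h3
  have hF : ContDiffOn ℝ ∞ (fun z : ℝ × V => w z.2 * K (x + z.1 • (Pi.single j 1 : V), z.2))
      (univ ×ˢ univ) := by
    refine ContDiff.contDiffOn ?_
    exact (hw.comp contDiff_snd).mul (hK.sm.comp (by fun_prop))
  have h4 := hd_int (H := univ) (F := fun s y => w y * K (x + s • (Pi.single j 1 : V), y))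
    (a := 0) (R := 8) isOpen_univ hF (fun s _ y hy => by rw [hK.zero' hy, mul_zero])
    (mem_univ 0)
  rw [h1.unique h4]
  refine integral_congr_ae (Eventually.of_forall fun y => ?_)
  show deriv (fun s : ℝ => w y * K (x + s • (Pi.single j 1 : V), y)) 0 =
    w y * fderiv ℝ K (x, y) (Pi.single j 1, 0)
  have h5 : HasDerivAt (fun s : ℝ => ((x + s • (Pi.single j 1 : V), y) : V × V))
      (Pi.single j 1, 0) 0 := hd.prodMk (hasDerivAt_const 0 y)
  have h6 := (hK.sm.differentiable (by simp)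
    (x + (0 : ℝ) • (Pi.single j 1 : V), y)).hasFDerivAt.comp_hasDerivAt (0 : ℝ) h5
  have h7 := (h6.const_mul (w y)).deriv
  rw [h0] at h7
  exact h7

theorem pd_slY {K : V × V → ℝ} (hK : Ker K) (x : V) (j : Fin 3) :
    pd j (fun y => K (x, y)) = fun y => fderiv ℝ K (x, y) (0, Pi.single j 1) := by
  funext y
  have h4 : HasFDerivAt (fun y : V => ((x, y) : V × V)) (ContinuousLinearMap.inr ℝ V V) y :=
    hasFDerivAt_prodMk_right x y
  have h5 : fderiv ℝ (fun y => K (x, y)) y =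
      (fderiv ℝ K (x, y)).comp (ContinuousLinearMap.inr ℝ V V) :=
    ((hK.sm.differentiable (by simp) (x, y)).hasFDerivAt.comp y h4).fderiv
  unfold pd
  rw [h5]
  simp

theorem IK_bound {v : V → V} (hv : Continuous v) {K : V × V → ℝ} (hK : Ker K) {N B : ℝ}
    (hN : ∀ z, |K z| ≤ N) (hB : A2 0 8 v ≤ B) (x : V) (j : Fin 3) :
    |∫ y, v y j * K (x, y)| ≤ N * (16 ^ 3 + B) := by
  have hN0 : 0 ≤ N := (abs_nonneg _).trans (hN 0)
  rw [← ball_int_eq (f := fun y => v y j * K (x, y)) (a := 0) (R := 8)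
    (fun y hy => by rw [hK.zero' hy, mul_zero])]
  have hvj : Continuous (fun y => v y j) := (continuous_apply j).comp hv
  have hKc : Continuous (fun y => K (x, y)) := hK.sm.continuous.comp (by fun_prop)
  have h1 : |∫ y in ball (0 : V) 8, v y j * K (x, y)| ≤
      ∫ y in ball (0 : V) 8, |v y j * K (x, y)| := abs_integral_le_integral_abs
  have h2 : ∫ y in ball (0 : V) 8, |v y j * K (x, y)| ≤
      ∫ y in ball (0 : V) 8, N * (1 + nsq v y) := by
    refine integral_mono (intOn (hvj.mul hKc).abs 0 8)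
      (intOn (continuous_const.mul (continuous_const.add (nsq_cont hv))) 0 8) fun y => ?_
    show |v y j * K (x, y)| ≤ N * (1 + nsq v y)
    rw [abs_mul]
    have e1 : v y j ^ 2 ≤ nsq v y := Finset.single_le_sum (f := fun i => v y i ^ 2)
      (fun i _ => sq_nonneg _) (Finset.mem_univ j)
    have e2 : |v y j| ≤ 1 + v y j ^ 2 := by
      rw [← sq_abs (v y j)]
      nlinarith [sq_nonneg (|v y j| - 1), abs_nonneg (v y j)]
    have e3 := hN (x, y)
    calc |v y j| * |K (x, y)| ≤ |v y j| * N := mul_le_mul_of_nonneg_left e3 (abs_nonneg _)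
      _ = N * |v y j| := mul_comm _ _
      _ ≤ N * (1 + nsq v y) := mul_le_mul_of_nonneg_left (by linarith) hN0
  have h3 : ∫ y in ball (0 : V) 8, N * (1 + nsq v y) = N * (16 ^ 3 + A2 0 8 v) := by
    rw [integral_const_mul, integral_add (intOn continuous_const 0 8) (intOn (nsq_cont hv) 0 8)]
    congr 2
    rw [setIntegral_const, smul_eq_mul, Measure.real, Real.volume_pi_ball 0 (by norm_num),
      ENNReal.toReal_ofReal (by positivity)]
    norm_num
  have h4 : N * (16 ^ 3 + A2 0 8 v) ≤ N * (16 ^ 3 + B) :=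
    mul_le_mul_of_nonneg_left (by linarith) hN0
  linarith

/-! ### The extension -/

theorem dense_H {H : Set ℝ} (hs : H ⊆ Ioo (-1) 0) (hG : volume (Ioo (-1 : ℝ) 0 \ H) = 0) :
    Icc (-1 : ℝ) 0 ⊆ closure H := by
  have h1 : Ioo (-1 : ℝ) 0 ⊆ closure H := by
    intro t ht
    rw [_root_.mem_closure_iff]
    intro O hO htO
    by_contra hcon
    have h2 : O ∩ Ioo (-1 : ℝ) 0 ⊆ Ioo (-1 : ℝ) 0 \ H := by
      intro s hs'
      exact ⟨hs'.2, fun hsG => hcon ⟨s, hs'.1, hsG⟩⟩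
    have h3 : IsOpen (O ∩ Ioo (-1 : ℝ) 0) := hO.inter isOpen_Ioo
    have h4 := h3.measure_pos volume ⟨t, htO, ht⟩
    have h5 := measure_mono_null h2 hG
    exact h4.ne' h5
  rw [← closure_Ioo (by norm_num : (-1 : ℝ) ≠ 0)]
  exact closure_minimal h1 isClosed_closure

theorem t_FLD (hK : S_KAP) (hA : S_ACX) : S_FLD := by
  intro g C hg H v q k h
  obtain ⟨κ, hκ1, hκ2, hκ3⟩ := hK g C hg
  have hKer : ∀ i j, Ker (fun z => κ i j z.1 z.2) := by
    intro i j
    refine ⟨hκ1 i j, closure_minimal ?_ (isClosed_closedBall.prod isClosed_closedBall)⟩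
    intro z hz
    by_contra hcon
    apply hz
    apply hκ2 i j z.1 z.2
    by_contra h1
    push Not at h1
    exact hcon ⟨ball_subset_closedBall h1.1, ball_subset_closedBall h1.2⟩
  obtain ⟨N, hN, hb⟩ := Ker.bound hKer
  obtain ⟨B0, hB0⟩ := h.bdd
  set B : ℝ := |B0| with hB
  have hB' : ∀ t ∈ H, A2 0 8 (v t) ≤ B := fun t ht => (hB0 t ht).trans (le_abs_self B0)
  have hBn : 0 ≤ B := abs_nonneg B0
  have hv : ∀ t ∈ H, ContDiff ℝ ∞ (v t) := fun t ht => sl_sm h.smooth_v ht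
  have hvj : ∀ t ∈ H, ∀ j, ContDiff ℝ ∞ (fun y => v t y j) := fun t ht j => comp_smooth (hv t ht) j
  set Φ : ℝ → V → V := fun t x i => ∑ j, ∫ y, v t y j * κ i j x y with hΦ
  -- modulus of continuity
  have hmod : ∀ x i, ∀ s ∈ H, ∀ t ∈ H, s ≤ t → |Φ t x i - Φ s x i| ≤
      ∫ τ in Ioo s t, 3 * N * k τ := by
    intro x i s hs t ht hst
    rw [integral_const_mul]
    have h1 : ∀ j, |(∫ y, v t y j * κ i j x y) - ∫ y, v s y j * κ i j x y| ≤
        N * ∫ τ in Ioo s t, k τ := by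
      intro j
      refine h.mod N (fun y => κ i j x y) hN ?_ ?_ ?_ ?_ ?_ s hs t ht hst j
      · exact (hκ1 i j).comp (contDiff_prodMk_right x)
      · intro z hz
        exact (hKer i j).zero' hz
      · intro z
        exact (hb i j (true, 0) (true, 0)).1 (x, z)
      · intro z l
        have e1 := pd_slY (hKer i j) x l
        rw [e1]
        exact (hb i j (false, l) (true, 0)).2.1 (x, z)
      · intro z l m
        have e1 := pd_slY (hKer i j) x m
        rw [e1]
        have e2 := pd_slY ((hKer i j).fd (0, Pi.single m 1)) x l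
        rw [e2]
        exact (hb i j (false, m) (false, l)).2.2 (x, z)
    have h2 : Φ t x i - Φ s x i = ∑ j, ((∫ y, v t y j * κ i j x y) -
        ∫ y, v s y j * κ i j x y) := by
      rw [Finset.sum_sub_distrib]
    rw [h2]
    refine (Finset.abs_sum_le_sum_abs _ _).trans ?_
    refine (Finset.sum_le_sum fun j _ => h1 j).trans (le_of_eq ?_)
    simp
    ring
  have hkn : ∀ t, 0 ≤ 3 * N * k t := fun t => mul_nonneg (by positivity) (h.knn t)
  have hex : ∀ x i, ∃ F : ℝ → ℝ, (∀ t ∈ H, F t = Φ t x i) ∧ Continuous F ∧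
      ∀ s ∈ Icc (-1 : ℝ) 0, ∀ t ∈ Icc (-1 : ℝ) 0, s ≤ t →
        |F t - F s| ≤ ∫ τ in Ioo s t, 3 * N * k τ :=
    fun x i => hA (-1) 0 H (fun t => Φ t x i) (fun τ => 3 * N * k τ) (by norm_num) h.subH
      (h.kint.integrableOn.const_mul _) hkn (hmod x i)
  choose F hF1 hF2 hF3 using hex
  have hcl : Icc (-1 : ℝ) 0 ⊆ closure H := dense_H h.subH h.fullH
  have hFΦ : ∀ t ∈ H, (fun x i => F x i t) = Φ t := fun t ht => by
    funext x i
    exact hF1 x i t ht
  -- bounds
  have b0 : ∀ t ∈ H, ∀ x i, |Φ t x i| ≤ 3 * (N * (16 ^ 3 + B)) := by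
    intro t ht x i
    refine (Finset.abs_sum_le_sum_abs _ _).trans ?_
    refine (Finset.sum_le_sum fun j _ => IK_bound (hv t ht).continuous (hKer i j)
      (hb i j (true, 0) (true, 0)).1 (hB' t ht) x j).trans (le_of_eq ?_)
    simp
  have p1 : ∀ t ∈ H, ∀ i j, pd j (fun y => Φ t y i) = fun x => ∑ m, ∫ y, v t y m *
      fderiv ℝ (fun z : V × V => κ i m z.1 z.2) (x, y) (Pi.single j 1, 0) := by
    intro t ht i j
    have e1 := pd_sum (F := fun m x => ∫ y, v t y m * κ i m x y)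
      (fun m => IK_smooth (hvj t ht m) (hKer i m)) j
    show pd j (fun x => ∑ m, ∫ y, v t y m * κ i m x y) = _
    rw [e1]
    funext x
    refine Finset.sum_congr rfl fun m _ => ?_
    exact congrFun (pd_IK (hvj t ht m) (hKer i m) j) x
  have p2 : ∀ t ∈ H, ∀ i j l, pd l (pd j (fun y => Φ t y i)) = fun x => ∑ m, ∫ y, v t y m *
      fderiv ℝ (fun z => fderiv ℝ (fun z : V × V => κ i m z.1 z.2) z (Pi.single j 1, 0)) (x, y)
        (Pi.single l 1, 0) := by
    intro t ht i j l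
    have e1 := pd_sum (F := fun m x => ∫ y, v t y m *
      fderiv ℝ (fun z : V × V => κ i m z.1 z.2) (x, y) (Pi.single j 1, 0))
      (fun m => IK_smooth (hvj t ht m) ((hKer i m).fd _)) l
    rw [p1 t ht i j, e1]
    funext x
    refine Finset.sum_congr rfl fun m _ => ?_
    exact congrFun (pd_IK (hvj t ht m) ((hKer i m).fd _) l) x
  have b1 : ∀ t ∈ H, ∀ i j x, |pd j (fun y => Φ t y i) x| ≤ 3 * (N * (16 ^ 3 + B)) := by
    intro t ht i j x
    rw [p1 t ht i j]
    refine (Finset.abs_sum_le_sum_abs _ _).trans ?_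
    refine (Finset.sum_le_sum fun m _ => IK_bound (hv t ht).continuous ((hKer i m).fd _)
      (hb i m (true, j) (true, 0)).2.1 (hB' t ht) x m).trans (le_of_eq ?_)
    simp
  have b2 : ∀ t ∈ H, ∀ i j l x, |pd l (pd j (fun y => Φ t y i)) x| ≤
      3 * (N * (16 ^ 3 + B)) := by
    intro t ht i j l x
    rw [p2 t ht i j l]
    refine (Finset.abs_sum_le_sum_abs _ _).trans ?_
    refine (Finset.sum_le_sum fun m _ => IK_bound (hv t ht).continuous (((hKer i m).fd _).fd _)
      (hb i m (true, j) (true, l)).2.2 (hB' t ht) x m).trans (le_of_eq ?_)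
    simp
  set M : ℝ := 3 * (N * (16 ^ 3 + B)) with hM
  have hM0 : 0 ≤ M := by positivity
  have sΦ : ∀ t ∈ H, ∀ i, ContDiff ℝ ∞ (fun y => Φ t y i) := fun t ht i =>
    ContDiff.sum fun j _ => IK_smooth (hvj t ht j) (hKer i j)
  have lΦ : ∀ t ∈ H, ∀ i x y, |Φ t x i - Φ t y i| ≤ 3 * M * ‖x - y‖ := by
    intro t ht i x y
    have h1 : ∀ x, ‖fderiv ℝ (fun y => Φ t y i) x‖ ≤ 3 * M := fun x =>
      clm_norm_le _ M fun j => b1 t ht i j x
    exact Convex.norm_image_sub_le_of_norm_fderiv_le (𝕜 := ℝ) (f := fun y => Φ t y i)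
      (s := univ) (fun x _ => (sΦ t ht i).differentiable (by simp) x)
      (fun x _ => h1 x) convex_univ (mem_univ y) (mem_univ x)
  refine ⟨fun t x i => F x i t, ⟨?_, ?_, ?_, ?_, ?_⟩, ?_⟩
  · have h1 : ContDiffOn ℝ ∞ (fun z : ℝ × V => Φ z.1 z.2) (H ×ˢ univ) := by
      refine contDiffOn_pi.2 fun i => ?_
      exact ContDiffOn.sum fun j _ => joint (w := fun t y => v t y j) h.openH
        (comp_joint h.smooth_v j) (hKer i j)
    refine h1.congr fun z hz => ?_
    exact congrFun (hFΦ z.1 hz.1) z.2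
  · refine ⟨⟨3 * M, by positivity⟩, fun t ht => LipschitzWith.of_dist_le_mul fun x y => ?_⟩
    rw [dist_pi_le_iff (by positivity)]
    intro i
    have hclosed : IsClosed {t : ℝ | dist (F x i t) (F y i t) ≤ 3 * M * dist x y} :=
      isClosed_le ((hF2 x i).dist (hF2 y i)) continuous_const
    refine closure_minimal ?_ hclosed (hcl ht)
    intro τ hτ
    show dist (F x i τ) (F y i τ) ≤ 3 * M * dist x y
    rw [hF1 x i τ hτ, hF1 y i τ hτ, Real.dist_eq, dist_eq_norm]
    exact lΦ τ hτ i x y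
  · refine ⟨M, fun t ht x => ?_⟩
    rw [pi_norm_le_iff_of_nonneg hM0]
    intro i
    have hclosed : IsClosed {t : ℝ | ‖F x i t‖ ≤ M} :=
      isClosed_le (hF2 x i).norm continuous_const
    refine closure_minimal ?_ hclosed (hcl ht)
    intro τ hτ
    show ‖F x i τ‖ ≤ _
    rw [hF1 x i τ hτ]
    exact b0 τ hτ x i
  · refine ⟨M, fun t ht x i j l => ?_⟩
    have e : (fun y => F y i t) = fun y => Φ t y i := funext fun y => hF1 y i t ht
    show |pd j (fun y => F y i t) x| ≤ M ∧ |pd l (pd j (fun y => F y i t)) x| ≤ M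
    rw [e]
    exact ⟨b1 t ht i j x, b2 t ht i j l x⟩
  · refine ⟨3 * N, fun s hs t ht hst x => ?_⟩
    have h0 : 0 ≤ ∫ τ in Ioo s t, k τ := integral_nonneg fun τ => h.knn τ
    rw [pi_norm_le_iff_of_nonneg (by positivity)]
    intro i
    have := hF3 x i s hs t ht hst
    rw [integral_const_mul] at this
    exact this
  · intro t ht x hx i
    show F x i t = _
    rw [hF1 x i t ht, hκ3 (v t) (hv t ht) (fun x _ => h.divfree t ht x) x hx i]

end Pool.Agent.Y784.NS8
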