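import Pool.Agent.Y8.Stm6
import Pool.Agent.Y8.En
import Pool.Agent.W505.ME.DEC
import Pool.Agent.W346.MD.HARM

/-!
The harmonic part of the decomposition as an integral against a smooth kernel (job KAP of the
project NS/Y8).
-/

set_option linter.unusedVariables false

open MeasureTheory Set Metric Filter Topology
open scoped ContDiff

namespace Pool.Agent.Y784.NS8

open H459R3.NS W221.NS Pool.Agent.Y8 Pool.Agent.W22.ME.TD

/-! ### The radial kernel -/

/-- A bump on the line. -/
noncomputable def bB : ContDiffBump (0 : ℝ) := ⟨1 / 32, 1 / 16, by norm_num, by norm_num⟩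

/-- The square of the Euclidean norm. -/
noncomputable def qn (y : V) : ℝ := ∑ i, y i ^ 2

/-- A primitive of `bB / 2`. -/
noncomputable def BI (s : ℝ) : ℝ := (1 / 2) * ∫ t in (1 : ℝ)..s, bB t

noncomputable def psi (y : V) : ℝ := BI (qn y)

noncomputable def phi0 (y : V) : ℝ := bB (qn y)

theorem BI_deriv (s : ℝ) : HasDerivAt BI ((1 / 2) * bB s) s := by
  have h : Continuous (bB : ℝ → ℝ) := bB.continuous
  exact (intervalIntegral.integral_hasDerivAt_right (h.intervalIntegrable _ _)
    (h.stronglyMeasurableAtFilter _ _) h.continuousAt).const_mul _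

theorem BI_smooth : ContDiff ℝ ∞ BI := by
  rw [contDiff_infty_iff_deriv]
  refine ⟨fun s => (BI_deriv s).differentiableAt, ?_⟩
  have : deriv BI = fun s => (1 / 2) * bB s := funext fun s => (BI_deriv s).deriv
  rw [this]
  exact contDiff_const.mul bB.contDiff

theorem bB_zero {s : ℝ} (hs : 1 / 16 ≤ s) : bB s = 0 := by
  apply bB.zero_of_le_dist
  show (1 / 16 : ℝ) ≤ dist s 0
  rw [Real.dist_eq, sub_zero]
  exact hs.trans (le_abs_self s)

theorem BI_zero {s : ℝ} (hs : 1 / 16 ≤ s) : BI s = 0 := by
  unfold BI
  have : ∫ t in (1 : ℝ)..s, bB t = ∫ t in (1 : ℝ)..s, (0 : ℝ) := by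
    refine intervalIntegral.integral_congr fun t ht => ?_
    apply bB_zero
    rw [mem_uIcc] at ht
    rcases ht with h | h
    · linarith [h.1]
    · linarith [h.1]
  rw [this]
  simp

theorem qn_smooth : ContDiff ℝ ∞ qn := by
  unfold qn
  exact ContDiff.sum fun i _ => (contDiff_apply ℝ ℝ i).pow 2

theorem qn_le {y : V} (hy : y ∉ ball (0 : V) (1 / 2)) : 1 / 16 ≤ qn y := by
  have h1 : 1 / 2 ≤ ‖y‖ := by simpa using hy
  by_contra hcon
  push Not at hcon
  have h2 : ∀ i, |y i| < 1 / 2 := by
    intro i
    have h3 : y i ^ 2 ≤ qn y := Finset.single_le_sum (f := fun i => y i ^ 2)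
      (fun i _ => sq_nonneg (y i)) (Finset.mem_univ i)
    rw [abs_lt]
    constructor <;> nlinarith
  have h3 : ‖y‖ < 1 / 2 := (pi_norm_lt_iff (by norm_num)).2 fun i => by
    rw [Real.norm_eq_abs]; exact h2 i
  linarith

theorem psi_smooth : ContDiff ℝ ∞ psi := BI_smooth.comp qn_smooth

theorem phi0_smooth : ContDiff ℝ ∞ phi0 := bB.contDiff.comp qn_smooth

theorem psi_zero {y : V} (hy : y ∉ ball (0 : V) (1 / 2)) : psi y = 0 := BI_zero (qn_le hy)

theorem phi0_zero {y : V} (hy : y ∉ ball (0 : V) (1 / 2)) : phi0 y = 0 := bB_zero (qn_le hy)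

theorem phi0_nn (y : V) : 0 ≤ phi0 y := bB.nonneg

theorem phi0_pos : 0 < ∫ y, phi0 y := by
  refine phi0_smooth.continuous.integral_pos_of_hasCompactSupport_nonneg_nonzero
    (hcs fun z hz => phi0_zero hz) phi0_nn (x := 0) ?_
  have : phi0 0 = 1 := by
    unfold phi0
    have : qn 0 = 0 := by simp [qn]
    rw [this]
    exact bB.one_of_mem_closedBall (mem_closedBall_self bB.rIn_pos.le)
  rw [this]
  norm_num

theorem pd_psi (i : Fin 3) (y : V) : pd i psi y = phi0 y * y i := by
  have h1 : HasFDerivAt qn (∑ k, (2 * y k) • (ContinuousLinearMap.proj (R := ℝ) (φ := fun _ : Fin 3 => ℝ) k)) y := by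
    unfold qn
    refine HasFDerivAt.fun_sum fun k _ => ?_
    have h2 : HasFDerivAt (fun z : V => z k) (ContinuousLinearMap.proj (R := ℝ)
      (φ := fun _ : Fin 3 => ℝ) k) y := (ContinuousLinearMap.proj (R := ℝ)
      (φ := fun _ : Fin 3 => ℝ) k).hasFDerivAt
    have h3 := h2.pow 2
    simpa using h3
  have h4 := (BI_deriv (qn y)).comp_hasFDerivAt y h1
  have h5 : fderiv ℝ psi y = _ := h4.fderiv
  unfold pd
  rw [h5]
  simp only [ContinuousLinearMap.smul_apply, ContinuousLinearMap.sum_apply,
    ContinuousLinearMap.proj_apply, smul_eq_mul, phi0]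
  rw [Finset.sum_eq_single i]
  · rw [Pi.single_eq_same]; ring
  · intro k _ hk
    rw [Pi.single_eq_of_ne hk]; ring
  · simp

/-! ### The mean value property -/

theorem ibp {f h : V → ℝ} (hf : ContDiff ℝ ∞ f) (hh : ContDiff ℝ ∞ h) (hc : HasCompactSupport f)
    (i : Fin 3) : ∫ x, pd i f x * h x = -∫ x, f x * pd i h x := by
  have hc' : HasCompactSupport (pd i f) := hc.fderiv_apply ℝ _
  have key := integral_mul_fderiv_eq_neg_fderiv_mul_of_integrable (𝕜 := ℝ) (μ := (volume : Measure V))
    (f := f) (g := h) (v := Pi.single i 1) ?_ ?_ ?_ (fun x _ => hf.differentiable (by simp) x)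
    (fun x _ => hh.differentiable (by simp) x)
  · show ∫ x, fderiv ℝ f x (Pi.single i 1) * h x = -∫ x, f x * fderiv ℝ h x (Pi.single i 1)
    rw [key, neg_neg]
  · exact ((pd_smooth hf i).continuous.mul hh.continuous).integrable_of_hasCompactSupport
      hc'.mul_right
  · exact (hf.continuous.mul (pd_smooth hh i).continuous).integrable_of_hasCompactSupport
      hc.mul_right
  · exact (hf.continuous.mul hh.continuous).integrable_of_hasCompactSupport
      hc.mul_right

theorem mean_value {h : V → ℝ} (hh : ContDiff ℝ ∞ h) {x : V}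
    (hl : ∀ z ∈ ball x (1 / 2), lap h z = 0) :
    ∫ y, phi0 y * h (x + y) = h x * ∫ y, phi0 y := by
  let F : ℝ → V → ℝ := fun r y => phi0 y * h (x + r • y)
  have hF : ContDiff ℝ ∞ (fun z : ℝ × V => F z.1 z.2) := by
    have h1 : ContDiff ℝ ∞ (fun z : ℝ × V => x + z.1 • z.2) := by fun_prop
    exact (phi0_smooth.comp contDiff_snd).mul (hh.comp h1)
  have hs : ∀ t ∈ (univ : Set ℝ), ∀ z ∉ ball (0 : V) (1 / 2), F t z = 0 := fun t _ z hz => by
    show phi0 z * _ = 0
    rw [phi0_zero hz, zero_mul]
  have hd : ∀ r : ℝ, HasDerivAt (fun s => ∫ y, F s y) (∫ y, deriv (fun s => F s y) r) r :=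
    fun r => hd_int isOpen_univ (hF.contDiffOn) hs (mem_univ r)
  have hder : ∀ r y, deriv (fun s => F s y) r = ∑ i, pd i psi y * pd i h (x + r • y) := by
    intro r y
    have h1 : HasDerivAt (fun s : ℝ => x + s • y) y r := by
      simpa using ((hasDerivAt_id r).smul_const y).const_add x
    have h2 := ((hh.differentiable (by simp) (x + r • y)).hasFDerivAt.comp_hasDerivAt r h1)
    have h3 : HasDerivAt (fun s => F s y) (phi0 y * fderiv ℝ h (x + r • y) y) r :=
      h2.const_mul (phi0 y)
    rw [h3.deriv]
    have h4 : fderiv ℝ h (x + r • y) y = ∑ i, y i * pd i h (x + r • y) := by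
      have : y = ∑ i, y i • (Pi.single i 1 : V) := by
        funext k
        simp [Finset.sum_apply, Pi.single_apply]
      refine (congrArg (fderiv ℝ h (x + r • y)) this).trans ?_
      rw [map_sum]
      refine Finset.sum_congr rfl fun i _ => ?_
      rw [map_smul]
      rfl
    rw [h4, Finset.mul_sum]
    refine Finset.sum_congr rfl fun i _ => ?_
    rw [pd_psi]
    ring
  have hzero : ∀ r ∈ Icc (0 : ℝ) 1, ∫ y, deriv (fun s => F s y) r = 0 := by
    intro r hr
    simp_rw [hder r]
    have hsm : ∀ i, ContDiff ℝ ∞ (fun y => pd i h (x + r • y)) := fun i =>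
      (pd_smooth hh i).comp (by fun_prop)
    have hc : HasCompactSupport psi := hcs fun z hz => psi_zero hz
    have hc1 : ∀ i : Fin 3, Integrable fun y => pd i psi y * pd i h (x + r • y) := by
      intro i
      have h8 : HasCompactSupport (pd i psi) := hc.fderiv_apply ℝ _
      exact ((pd_smooth psi_smooth i).continuous.mul
        (hsm i).continuous).integrable_of_hasCompactSupport h8.mul_right
    rw [integral_finsetSum _ fun i _ => hc1 i]
    have h5 : ∀ i, ∫ y, pd i psi y * pd i h (x + r • y) =
        -∫ y, psi y * (r * pd i (pd i h) (x + r • y)) := by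
      intro i
      rw [ibp psi_smooth (hsm i) hc i]
      congr 1
      refine integral_congr_ae (Eventually.of_forall fun y => ?_)
      show psi y * pd i (fun y => pd i h (x + r • y)) y = _
      rw [Pool.Agent.W346.MD.pd_comp ((pd_smooth hh i).differentiable (by simp))]
    rw [Finset.sum_congr rfl fun i _ => h5 i, Finset.sum_neg_distrib]
    have hc2 : ∀ i : Fin 3, Integrable fun y => psi y * (r * pd i (pd i h) (x + r • y)) := by
      intro i
      have : Continuous fun y => psi y * (r * pd i (pd i h) (x + r • y)) := by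
        have h7 := (pd_smooth (pd_smooth hh i) i).continuous
        exact psi_smooth.continuous.mul (continuous_const.mul (h7.comp (by fun_prop)))
      exact this.integrable_of_hasCompactSupport hc.mul_right
    rw [← integral_finsetSum _ fun i _ => hc2 i, neg_eq_zero]
    have h6 : ∀ y, ∑ i, psi y * (r * pd i (pd i h) (x + r • y)) = 0 := by
      intro y
      have e : ∑ i, psi y * (r * pd i (pd i h) (x + r • y)) = psi y * (r * lap h (x + r • y)) := by
        unfold lap
        rw [Finset.mul_sum, Finset.mul_sum]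
      rw [e]
      by_cases hy : y ∈ ball (0 : V) (1 / 2)
      · rw [hl, mul_zero, mul_zero]
        rw [mem_ball, dist_eq_norm, add_sub_cancel_left, norm_smul, Real.norm_of_nonneg hr.1]
        have : ‖y‖ < 1 / 2 := by simpa using hy
        have h0 := norm_nonneg y
        nlinarith [hr.1, hr.2]
      · rw [psi_zero hy, zero_mul]
    simp_rw [h6]
    simp
  have hconst := constant_of_has_deriv_right_zero (f := fun s => ∫ y, F s y) (a := 0) (b := 1)
    (fun r _ => (hd r).continuousAt.continuousWithinAt)
    (fun r hr => by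
      have := hd r
      rw [hzero r ⟨hr.1, hr.2.le⟩] at this
      exact this.hasDerivWithinAt) 1 (by norm_num)
  simp only [F, one_smul, zero_smul, add_zero] at hconst
  rw [hconst, integral_mul_const, mul_comm]


/-! ### The potential term -/

section

variable {g : V → ℝ} {C : ℝ}

theorem T4_phi0 : T4 phi0 :=
  ⟨phi0_smooth, fun z hz => phi0_zero fun h => hz (ball_subset_ball (by norm_num) h)⟩

theorem phi0_even (y : V) : phi0 (-y) = phi0 y := by
  simp [phi0, qn]

theorem pd_phi0_odd (i : Fin 3) (y : V) : pd i phi0 (-y) = -pd i phi0 y := by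
  have h2 := Pool.Agent.W346.MD.pd_comp (phi0_smooth.differentiable (by simp)) 0 (-1) i y
  have h1 : (fun z : V => phi0 (0 + (-1 : ℝ) • z)) = phi0 := funext fun z => by
    rw [zero_add, neg_one_smul, phi0_even]
  rw [h1, zero_add, neg_one_smul] at h2
  linarith

theorem E_eq (g : V → ℝ) (i : Fin 3) (x w : V) :
    ∫ y, pd i phi0 (y - x) * g (y - w) = -KK g (pd i phi0) (x - w) := by
  unfold KK
  rw [← integral_sub_left_eq_self (fun t => g (x - w - t) * pd i phi0 t) volume x,
    ← integral_neg]
  refine integral_congr_ae (Eventually.of_forall fun y => ?_)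
  show pd i phi0 (y - x) * g (y - w) = -(g (x - w - (x - y)) * pd i phi0 (x - y))
  have e1 : x - w - (x - y) = y - w := by abel
  have e2 : x - y = -(y - x) := by abel
  rw [e1, e2, pd_phi0_odd]
  ring

theorem fub (hg : IsGreen g C) {a : V → ℝ} (ha : T4 a) {x : V} (hx : x ∈ ball (0 : V) 1)
    (i : Fin 3) :
    ∫ y, pd i phi0 (y - x) * KK g a y = -∫ w, a w * KK g (pd i phi0) (x - w) := by
  set g0 : V → ℝ := (ball (0 : V) 8).indicator g with hg0
  have hgi : Integrable g0 := by
    rw [hg0, integrable_indicator_iff measurableSet_ball]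
    exact (hg.loc.integrableOn_isCompact (isCompact_closedBall (0 : V) 8)).mono_set
      ball_subset_closedBall
  have hPz : ∀ z ∉ ball (0 : V) (1 / 2), pd i phi0 z = 0 := fun z hz =>
    pd_zero' phi0_smooth (by norm_num) (fun z hz => phi0_zero hz) hz i
  have pw : ∀ y w, pd i phi0 (y - x) * (a w * g0 (y - w)) =
      pd i phi0 (y - x) * (a w * g (y - w)) := by
    intro y w
    by_cases hy : y - x ∈ ball (0 : V) (1 / 2)
    · by_cases hw : w ∈ ball (0 : V) 4
      · have : y - w ∈ ball (0 : V) 8 := by
          rw [mem_ball_zero_iff] at hy hw hx ⊢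
          have e : y - w = (y - x) + x - w := by abel
          rw [e]
          have h1 := norm_sub_le ((y - x) + x) w
          have h2 := norm_add_le (y - x) x
          linarith
        rw [hg0, indicator_of_mem this]
      · rw [ha.2 w hw]; ring
    · rw [hPz _ hy]; ring
  have hPc : Continuous (pd i phi0) := (pd_smooth phi0_smooth i).continuous
  obtain ⟨M, hM, hMb⟩ := T4_bdd (T4_pd T4_phi0 i)
  have hint : Integrable (fun p : V × V => pd i phi0 (p.1 - x) * (a p.2 * g0 (p.1 - p.2)))
      (volume.prod volume) := by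
    have h1 := Integrable.convolution_integrand (ContinuousLinearMap.mul ℝ ℝ)
      (T4_int ha) hgi
    refine Integrable.bdd_mul (c := M) h1 ?_ ?_
    · exact (hPc.comp (by fun_prop)).aestronglyMeasurable
    · exact Eventually.of_forall fun p => hMb _
  have s1 : ∫ y, pd i phi0 (y - x) * KK g a y =
      ∫ y, ∫ w, pd i phi0 (y - x) * (a w * g0 (y - w)) := by
    refine integral_congr_ae (Eventually.of_forall fun y => ?_)
    show pd i phi0 (y - x) * KK g a y = ∫ w, pd i phi0 (y - x) * (a w * g0 (y - w))
    unfold KK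
    rw [← integral_const_mul]
    refine integral_congr_ae (Eventually.of_forall fun w => ?_)
    show pd i phi0 (y - x) * (g (y - w) * a w) = pd i phi0 (y - x) * (a w * g0 (y - w))
    rw [pw]
    ring
  rw [s1, integral_integral_swap hint, ← integral_neg]
  refine integral_congr_ae (Eventually.of_forall fun w => ?_)
  show ∫ y, pd i phi0 (y - x) * (a w * g0 (y - w)) = -(a w * KK g (pd i phi0) (x - w))
  rw [← mul_neg, ← E_eq, ← integral_const_mul]
  refine integral_congr_ae (Eventually.of_forall fun y => ?_)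
  show pd i phi0 (y - x) * (a w * g0 (y - w)) = a w * (pd i phi0 (y - x) * g (y - w))
  rw [pw]
  ring

theorem rep (hg : IsGreen g C) {a : V → ℝ} (ha : T4 a) (h0 : ∀ z ∈ ball (0 : V) 2, a z = 0)
    (i : Fin 3) {x : V} (hx : x ∈ ball (0 : V) 1) :
    pd i (KK g a) x * ∫ y, phi0 y = ∫ w, a w * KK g (pd i phi0) (x - w) := by
  have sK := hg.smooth a ha
  have h1 := mean_value (pd_smooth sK i) (x := x) (fun z hz => harm hg ha h0 i z (by
    rw [mem_ball_zero_iff] at hx ⊢
    rw [mem_ball, dist_eq_norm] at hz
    have h2 := norm_add_le (z - x) x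
    rw [sub_add_cancel] at h2
    linarith))
  rw [← h1, ← integral_sub_right_eq_self (fun y => phi0 y * pd i (KK g a) (x + y)) x]
  have h3 : ∀ y, x + (y - x) = y := fun y => by abel
  simp_rw [h3]
  have hs : ContDiff ℝ ∞ (fun y => phi0 (y - x)) := phi0_smooth.comp (by fun_prop)
  have hc : HasCompactSupport (fun y => phi0 (y - x)) := by
    refine hcs (a := x) (r := 1 / 2) fun z hz => phi0_zero fun h => hz ?_
    rw [mem_ball, dist_eq_norm]
    simpa using h
  have h4 := ibp hs sK hc i
  have h5 := fub hg ha hx i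
  rw [pd_shift x i] at h4
  linarith

/-- The kernel. -/
noncomputable def Zf (g : V → ℝ) (i : Fin 3) (u : V) : ℝ := (∫ y, phi0 y)⁻¹ * KK g (pd i phi0) u

theorem Zf_smooth (hg : IsGreen g C) (i : Fin 3) : ContDiff ℝ ∞ (Zf g i) :=
  contDiff_const.mul (hg.smooth _ (T4_pd T4_phi0 i))

theorem rep' (hg : IsGreen g C) {a : V → ℝ} (ha : T4 a) (h0 : ∀ z ∈ ball (0 : V) 2, a z = 0)
    (i : Fin 3) {x : V} (hx : x ∈ ball (0 : V) 1) :
    pd i (KK g a) x = ∫ w, a w * Zf g i (x - w) := by
  have h1 := rep hg ha h0 i hx
  have h2 := phi0_pos.ne'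
  have h3 : ∀ w, a w * Zf g i (x - w) = (∫ y, phi0 y)⁻¹ * (a w * KK g (pd i phi0) (x - w)) := by
    intro w
    unfold Zf
    ring
  simp_rw [h3]
  rw [integral_const_mul, ← h1]
  field_simp

/-- The cutoff in `x`. -/
noncomputable def cx : ContDiffBump (0 : V) := ⟨1, 2, by norm_num, by norm_num⟩

theorem t_KAP : S_KAP := by
  intro g C hg
  have hpd : ∀ i, ContDiff ℝ ∞ (pd i chi) := fun i => pd_smooth T4_chi.1 i
  refine ⟨fun i j x y => cx x * ((if i = j then chi y / 16 ^ 3 - ∑ l, pd l chi y * Zf g l (x - y)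
    else 0) - pd j chi y * Zf g i (x - y) + pd i chi y * Zf g j (x - y)), ?_, ?_, ?_⟩
  · intro i j
    have c1 : ContDiff ℝ ∞ (fun z : V × V => cx z.1) := cx.contDiff.comp contDiff_fst
    have c2 : ContDiff ℝ ∞ (fun z : V × V => chi z.2) := chi.contDiff.comp contDiff_snd
    have c3 : ∀ l, ContDiff ℝ ∞ (fun z : V × V => pd l chi z.2) := fun l =>
      (hpd l).comp contDiff_snd
    have c4 : ∀ l, ContDiff ℝ ∞ (fun z : V × V => Zf g l (z.1 - z.2)) := fun l =>
      (Zf_smooth hg l).comp (contDiff_fst.sub contDiff_snd)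
    refine c1.mul (((?_ : ContDiff ℝ ∞ _).sub ((c3 j).mul (c4 i))).add ((c3 i).mul (c4 j)))
    by_cases hij : i = j
    · simp only [hij, if_true]
      exact (c2.div_const _).sub (ContDiff.sum fun l _ => (c3 l).mul (c4 l))
    · simp only [hij, if_false]
      exact contDiff_const
  · intro i j x y h
    rcases h with h | h
    · have : cx x = 0 := by
        apply cx.zero_of_le_dist
        show (2 : ℝ) ≤ dist x 0
        simpa using h
      simp only [this, zero_mul]
    · have h1 : chi y = 0 := T4_chi.2 y h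
      have h2 : ∀ l, pd l chi y = 0 := fun l => (T4_pd T4_chi l).2 y h
      simp only [h1, h2, zero_mul, Finset.sum_const_zero, zero_div, sub_zero, add_zero,
        ite_self, mul_zero]
  · intro v hv hd x hx i
    have hcx : cx x = 1 := cx.one_of_mem_closedBall (ball_subset_closedBall hx)
    have hx2 : x ∈ ball (0 : V) 2 := ball_subset_ball (by norm_num) hx
    have zw : ∀ j, ∀ z ∈ ball (0 : V) 2, ww v j j z = 0 := by
      intro j z hz
      show pd j chi z * _ = 0
      rw [pd_chi_zero j hz, zero_mul]
    have zv : ∀ j, ∀ z ∈ ball (0 : V) 2, vp v i j z = 0 := by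
      intro j z hz
      show pd i chi z * v z j - pd j chi z * v z i = 0
      rw [pd_chi_zero i hz, pd_chi_zero j hz]; ring
    rw [Pool.Agent.W505.ME.DEC.D_eq hg hv hd hx2 i]
    have hZc : ∀ l, Continuous fun w => Zf g l (x - w) := fun l =>
      (Zf_smooth hg l).continuous.comp (by fun_prop)
    have i1 : Integrable (fun y => uu v i y / 16 ^ 3) := (T4_int (T4_uu hv i)).div_const _
    have i2 : ∀ j, Integrable fun w => ww v j j w * Zf g i (x - w) := fun j =>
      ((T4_ww hv j j).1.continuous.mul (hZc i)).integrable_of_hasCompactSupport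
        (HasCompactSupport.mul_right (hcs (T4_ww hv j j).2))
    have i3 : ∀ j, Integrable fun w => vp v i j w * Zf g j (x - w) := fun j =>
      ((T4_vp hv i j).1.continuous.mul (hZc j)).integrable_of_hasCompactSupport
        (HasCompactSupport.mul_right (hcs (T4_vp hv i j).2))
    have e1 : (∫ y, uu v i y) / 16 ^ 3 - (∑ j, pd i (KK g (ww v j j)) x)
        + ∑ j, pd j (KK g (vp v i j)) x = ∫ w, (uu v i w / 16 ^ 3 -
          (∑ j, ww v j j w * Zf g i (x - w)) + ∑ j, vp v i j w * Zf g j (x - w)) := by
      have i2' : Integrable fun w => ∑ j, ww v j j w * Zf g i (x - w) :=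
        integrable_finsetSum _ fun j _ => i2 j
      have i3' : Integrable fun w => ∑ j, vp v i j w * Zf g j (x - w) :=
        integrable_finsetSum _ fun j _ => i3 j
      have i12 : Integrable fun w => uu v i w / 16 ^ 3 - ∑ j, ww v j j w * Zf g i (x - w) :=
        i1.sub i2'
      rw [integral_add i12 i3', integral_sub i1 i2',
        integral_finsetSum _ fun j _ => i2 j, integral_finsetSum _ fun j _ => i3 j, integral_div]
      congr 1
      · congr 1
        exact Finset.sum_congr rfl fun j _ => rep' hg (T4_ww hv j j) (zw j) i hx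
      · exact Finset.sum_congr rfl fun j _ => rep' hg (T4_vp hv i j) (zv j) j hx
    rw [e1]
    simp only [hcx, one_mul]
    have i4 : ∀ j, Integrable fun y => v y j * ((if i = j then chi y / 16 ^ 3 -
        ∑ l, pd l chi y * Zf g l (x - y) else 0) - pd j chi y * Zf g i (x - y) +
        pd i chi y * Zf g j (x - y)) := by
      intro j
      have k1 : Continuous (fun y => v y j) := (comp_smooth hv j).continuous
      have k2 : Continuous (chi : V → ℝ) := chi.continuous
      have k3 : ∀ l, Continuous (pd l chi) := fun l => (hpd l).continuous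
      have k4 : Continuous (fun y => (if i = j then chi y / 16 ^ 3 -
          ∑ l, pd l chi y * Zf g l (x - y) else 0)) := by
        by_cases hij : i = j
        · simp only [hij, if_true]
          exact (k2.div_const _).sub (continuous_finset_sum _ fun l _ => (k3 l).mul (hZc l))
        · simp only [hij, if_false]
          exact continuous_const
      have k5 : Continuous fun y => v y j * ((if i = j then chi y / 16 ^ 3 -
          ∑ l, pd l chi y * Zf g l (x - y) else 0) - pd j chi y * Zf g i (x - y) +
          pd i chi y * Zf g j (x - y)) := k1.mul ((k4.sub ((k3 j).mul (hZc i))).add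
        ((k3 i).mul (hZc j)))
      refine k5.integrable_of_hasCompactSupport (hcs (a := (0 : V)) (r := 4)
        fun z hz => ?_)
      have h1 : chi z = 0 := T4_chi.2 z hz
      have h2 : ∀ l, pd l chi z = 0 := fun l => (T4_pd T4_chi l).2 z hz
      simp only [h1, h2, zero_mul, Finset.sum_const_zero, zero_div, sub_zero, add_zero,
        ite_self, mul_zero]
    rw [← integral_finsetSum _ fun j _ => i4 j]
    refine integral_congr_ae (Eventually.of_forall fun w => ?_)
    beta_reduce
    simp only [uu, ww, vp, mul_add, mul_sub, Finset.sum_add_distrib, Finset.sum_sub_distrib,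
      mul_ite, mul_zero, Finset.sum_ite_eq, Finset.mem_univ, if_true, sub_mul, Finset.mul_sum]
    have r1 : ∑ j, v w i * (pd j chi w * Zf g j (x - w)) =
        ∑ j, pd j chi w * v w i * Zf g j (x - w) :=
      Finset.sum_congr rfl fun j _ => by ring
    have r2 : ∑ j, v w j * (pd j chi w * Zf g i (x - w)) =
        ∑ j, pd j chi w * v w j * Zf g i (x - w) :=
      Finset.sum_congr rfl fun j _ => by ring
    have r3 : ∑ j, v w j * (pd i chi w * Zf g j (x - w)) =
        ∑ j, pd i chi w * v w j * Zf g j (x - w) :=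
      Finset.sum_congr rfl fun j _ => by ring
    rw [r1, r2, r3]
    ring

end

end Pool.Agent.Y784.NS8
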